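import Pool.Agent.Q183.Csf.Main

/-!
# csf-countability of the levels `A_n(X)` over Lašnev spaces
-/

namespace Pool.Agent.Results.MP_1e4d5b_gt.TwoLevelSuffices

open Q183.Csf

universe u

/-- **Theorem.** Let `X` be a Lašnev space, `A` (with `i : X → A`) the free abelian topological
group over `X` in the sense of Markov, and `m ≥ 2` (for instance `m = 4`). If `A_m(X)` is
csf-countable, then `A_n(X)` is csf-countable for every `n`. -/
theorem result (X : Type u) [TopologicalSpace X] (hX : IsLasnev X)
    (A : Type u) [AddCommGroup A] [TopologicalSpace A] (i : X → A) (hA : IsMarkovFree X A i)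
    (m : ℕ) (hm : 2 ≤ m) (h : CsfCountable (level i m)) (n : ℕ) :
    CsfCountable (level i n) := by
  have := hX.1
  have := hX.normal
  have := hX.sequential
  exact main hA m hm h n

end Pool.Agent.Results.MP_1e4d5b_gt.TwoLevelSuffices
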